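import Pool.Agent.W_58hard_h42.Main

/-!
# MP_58cc3c_co: recognising the shellable intervals of the pattern poset is coNP-hard

For permutations `α`, `β` with `2 ≤ |α|, |β|` and `|α| ≤ 2 |β|` an explicit pair `σ ≤ π` with
`|π| = |σ| + |β| + 1` is constructed (`pair_spec` in `W_58hard_h42/Main.lean`): if `α` is not
contained in `β`, then `[σ, π]` is a Boolean lattice; if `α ≤ β`, then the interior of `[σ, π]` is
disconnected.  Both are skew sums of blocks (`π` has the block `α` followed by blocks obtained from
`β`), whose consecutive blocks are tied by linkers, points which interleave with two blocks; the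
linkers make the embeddings of `σ` rigid.  The containment problem is NP-hard by an own reduction
from satisfiability (`Sat.lean` and its companions), and polynomial time is the notion of Mathlib.
-/

set_option autoImplicit false

open Turing Computability

namespace Pool.Agent.Results.MP_58cc3c_co.CoNPHard

open Pool.Agent.W_58cc_h2 Pool.Agent.W_58hard_h42 Pool.Agent.PolyTime

/-- Recognising the shellable intervals of the pattern poset is coNP-hard, even for intervals which
are either Boolean lattices or have a disconnected interior.  For every language `L` in NP there is
a map `f` from bit strings to pairs of permutations, computable in polynomial time, such that for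
every `x`, with `f x = (σ, π)`: `σ ≤ π`, the rank `|π| - |σ|` of `[σ, π]` is at least three; if `x`
is not in `L` then `[σ, π]` is a Boolean lattice; if `x ∈ L` then the interior of `[σ, π]` is
disconnected; and `x ∈ L` if and only if `Δ(σ, π)` is not shellable. -/
theorem result :
    Function.Injective code ∧
    ∀ L : Set (List Bool), InNP L →
      ∃ f : List Bool → FPerm × FPerm,
        Nonempty (TM2ComputableInPolyTime (fun x : List Bool => x) code f) ∧
        ∀ x, PatLE (f x).1 (f x).2 ∧ (f x).1.n + 3 ≤ (f x).2.n ∧
          (x ∉ L → IsBoolean (f x).1 (f x).2 ((f x).2.n - (f x).1.n)) ∧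
          (x ∈ L → Disconnected (f x).1 (f x).2) ∧
          (x ∈ L ↔ ¬ Shellable (Delta (f x).1 (f x).2)) :=
  final

end Pool.Agent.Results.MP_58cc3c_co.CoNPHard
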