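import Pool.Agent.W_58ccg_h2.GFinal

/-!
# MP_58cc3c_co: the shellable intervals below a permutation with one descent

The permutations with at most one descent form a down-set of the pattern poset.  A permutation with one descent is
encoded by the binary word `l` of the values (`l v = 1` if the value `v` stands in the second run); patterns become
subwords, the sorted words `0 ^ a 1 ^ b` are the identities (`Dict.lean`).  So the interval from `id_k` to the word `w`
consists of the `idp n`, `k ≤ n ≤ lis w` (greatest length of a sorted subword) and of the non sorted subwords `u` of
`w` with `k ≤ lis u`.  The obstructions are the words `0 ^ p v 1 ^ q`, `v` a prime Dyck word with `m ≥ 3` ones.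

Main tool (`AbsB.lean`, `Up.lean`): if `A ⊆ P`, the part of the interval in `A` is shellable, and for every `x` outside
`A` the part of `P` below `x` and the part of `A` above `x` are shellable, then the interval of `P` is shellable,
provided that for `z < x < a` covering relations with `z ∈ P`, `a ∈ A` there is `y ∈ A` with `z < y < a`: order the
facets by their largest element outside `A`.  With this lemma the identities are removed first, then words by
their leading letters (`W_58ccg_h2/GWm.lean`).  Conversely a shellable complex is connected in codimension one
inside links (`GNegB.lean`), and the intervals from `id_(p+m+q)` to the obstruction words `0 ^ p v 1 ^ q` are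
disconnected: their words contain all the zeros or all the ones (`GObs.lean`).
-/

namespace Pool.Agent.Results.MP_58cc3c_co.OneDescentAll

open Pool.Agent.W_58cc_h2

/-- Let `t` be a permutation with exactly one descent and `s ≤ t`.  The complex `Δ(s, t)` is shellable if and only if
no open subinterval of rank at least three is disconnected, and if and only if it is not the case that `s` is an
identity `id_k` and `t` contains an obstruction for `id_k`. -/
theorem result (s t : FPerm) (ht : OneDescent t) (hst : PatLE s t) :
    (Shellable (Delta s t) ↔
      ∀ x y : FPerm, PatLE s x → PatLE x y → PatLE y t → x.n + 3 ≤ y.n → ¬ Disconnected x y) ∧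
    (Shellable (Delta s t) ↔
      ¬ ∃ (k : ℕ) (o : FPerm), s = idn k ∧ Obstruction k o ∧ PatLE o t) :=
  finalAll s t ht hst

end Pool.Agent.Results.MP_58cc3c_co.OneDescentAll
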